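import Pool.Agent.Helper37.Ad.Defs
import Pool.Agent.Helper37.Ad.MDefs
import Pool.Agent.Helper37.Af.Defs

/-!
# Definitions for the uniform adelic dichotomy (MP_6cbef8_nt)
-/

set_option autoImplicit false

open NumberField Polynomial Pool.Agent.Helper37.Af Pool.Agent.Helper37.Fd Pool.Agent.Helper37.Ad

namespace Pool.Agent.Helper37.Ub

/-- The image of `H` under `(V v)_v` contains the product of the groups `SL_2(O_v)` over all places
`v` of residue characteristic `ℓ v` larger than `x`: every family `(y v)` of matrices of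
determinant one with entries of norm at most one, and with `y v = 1` if `ℓ v ≤ x`, is the image of
an element of `H`. -/
def FullBeyond {Λ : Type*} (ℓ : Λ → ℕ) {E : Λ → Type*} [∀ v, NormedField (E v)] {G : Type*} [Group G]
    (x : ℕ) (H : Subgroup G) (V : ∀ v, G →* GL (Fin 2) (E v)) : Prop :=
  ∀ y : ∀ v, Matrix.SpecialLinearGroup (Fin 2) (E v),
    (∀ v i j, ‖(y v : Matrix (Fin 2) (Fin 2) (E v)) i j‖ ≤ 1) → (∀ v, ℓ v ≤ x → y v = 1) →
    ∃ g ∈ H, ∀ v, (V v g : Matrix (Fin 2) (Fin 2) (E v)) = (y v : Matrix (Fin 2) (Fin 2) (E v))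

/-- The unit ball of `F` is covered by `q` open balls of radius one (residue classes). -/
def FewClasses (q : ℕ) (F : Type*) [NormedField F] : Prop :=
  ∃ A : Finset F, A.card ≤ q ∧ ∀ y : F, ‖y‖ ≤ 1 → ∃ a ∈ A, ‖y - a‖ < 1

section

variable {M : Type*} [Field M] [NumberField M] {Λ : Type*} (ℓ : Λ → ℕ) [∀ v, Fact (ℓ v).Prime]
  {E : Λ → Type*} [∀ v, NontriviallyNormedField (E v)] [∀ v, NormedAlgebra ℚ_[ℓ v] (E v)]
  (j : ∀ v, M →+* E v)
  {F : Λ → Type*} [∀ v, NontriviallyNormedField (F v)] [∀ v, NormedAlgebra ℚ_[ℓ v] (F v)]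
  (φ : ∀ v, E v →ₐ[ℚ_[ℓ v]] F v)
  {G : Type*} [Group G] [TopologicalSpace G] (V : ∀ v, G →* GL (Fin 2) (E v)) {d : ℕ}
  (T : ∀ (l : ℕ) [Fact l.Prime], G →* GL (Fin d) ℚ_[l])

/-- `V v` is potentially contained in `T (ℓ v)` over the extension `F v` of `E v`. -/
def ContainedAt (v : Λ) : Prop :=
  PotentiallyContained (extend (φ v : E v →+* F v) (V v)) (baseChange (F v) (T (ℓ v)))

/-- The elements `y` with `T (ℓ v) y` congruent to one modulo `ℓ v` act on `V v` by scalars modulo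
the maximal ideal of `E v`. -/
def ScalarAt (v : Λ) : Prop :=
  ∀ y : G, (∀ s t, ‖(T (ℓ v) y : Matrix (Fin d) (Fin d) ℚ_[ℓ v]) s t -
      (1 : Matrix (Fin d) (Fin d) ℚ_[ℓ v]) s t‖ < 1) →
    ‖(V v y : Matrix (Fin 2) (Fin 2) (E v)) 0 1‖ < 1 ∧
    ‖(V v y : Matrix (Fin 2) (Fin 2) (E v)) 1 0‖ < 1 ∧
    ‖(V v y : Matrix (Fin 2) (Fin 2) (E v)) 0 0 -
      (V v y : Matrix (Fin 2) (Fin 2) (E v)) 1 1‖ < 1

/-- The `T l` are continuous and integral, for every `v` the representation `T (ℓ v)` is semisimple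
over `F v`, and `(V v, T (ℓ v))` is idempotent generated over `F v`. -/
structure IsSystem : Prop where
  continuous : ∀ (l : ℕ) [Fact l.Prime], Continuous (T l)
  integral : ∀ (l : ℕ) [Fact l.Prime] (y : G) (s t : Fin d),
    ‖(T l y : Matrix (Fin d) (Fin d) ℚ_[l]) s t‖ ≤ 1
  semisimple : ∀ v, Semisimple (baseChange (F v) (T (ℓ v)))
  generated : ∀ v, IdempotentGenerated (ℓ v) (extend (φ v : E v →+* F v) (V v))
    (baseChange (F v) (T (ℓ v)))

/-- For `v` in any finite set the characteristic polynomials of `V v`, `T (ℓ v)` are the images of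
those of `f`, `g` at a dense set of elements. -/
def DenselyMatching (f g : G → (𝓞 M)[X]) : Prop :=
  ∀ Φ : Finset Λ, Dense {r | ∀ v ∈ Φ, Matches ℓ E j V T f g v r}

/-- There are a normal subgroup `N` on which `V v₀` and `T (ℓ v₀)` are trivial, a subset `D` which
meets every conjugacy class of every quotient of `G / N` of order at most `K`, and a bound `c` such
that at the elements `r` of `D` the characteristic polynomials at `v₀` and at all `v` with
`x < ℓ v` are the images of `f r`, `g r`, the complex roots of these polynomials are bounded by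
`c`, and `(2 c ^ 2) ^ (2 d ^ 2 [M : ℚ]) ≤ x`. -/
def Comparable (K x : ℕ) (v₀ : Λ) (f g : G → (𝓞 M)[X]) : Prop :=
  ∃ (N : Subgroup G) (D : Set G) (c : ℝ), N.Normal ∧ N ≤ (V v₀).ker ∧ N ≤ (T (ℓ v₀)).ker ∧
    (∀ U : Subgroup G, U.Normal → IsOpen (U : Set G) → N ≤ U → U.index ≤ K →
      ∀ y : G, ∃ r ∈ D, ∃ h : G, y⁻¹ * (h * r * h⁻¹) ∈ U) ∧
    (∀ r ∈ D, ∀ v, v = v₀ ∨ x < ℓ v → Matches ℓ E j V T f g v r) ∧
    (∀ r ∈ D, ∀ (σ : M →+* ℂ) (z : ℂ), (f r).eval₂ (σ.comp (algebraMap (𝓞 M) M)) z = 0 ∨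
      (g r).eval₂ (σ.comp (algebraMap (𝓞 M) M)) z = 0 → ‖z‖ ≤ c) ∧
    (2 * c ^ 2) ^ (2 * d ^ 2 * Module.finrank ℚ M) ≤ (x : ℝ)

end

end Pool.Agent.Helper37.Ub
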