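import Pool.Agent.Helper37.Ad.Cpt
import Pool.Agent.Helper37.Ub.Defs

/-!
# Project UB (MP_6cbef8_nt): places of large residue characteristic, finite intersections
-/

set_option autoImplicit false

namespace Pool.Agent.Helper37.Ub

open Pool.Agent.Helper37.Ad

variable {Λ : Type*} {E : Λ → Type*} [∀ v, NontriviallyNormedField (E v)]
  [∀ v, IsUltrametricDist (E v)] {G : Type*} [Group G] [TopologicalSpace G]
  [IsTopologicalGroup G] [CompactSpace G]

private lemma closed_eq {v : Λ} (V : ∀ v, G →* GL (Fin 2) (E v)) (hV : ∀ v, Continuous (V v))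
    (M : Matrix (Fin 2) (Fin 2) (E v)) :
    IsClosed {g : G | (V v g : Matrix (Fin 2) (Fin 2) (E v)) = M} :=
  isClosed_eq (Units.continuous_val.comp (hV v)) continuous_const

omit [∀ v, IsUltrametricDist (E v)] [TopologicalSpace G] [IsTopologicalGroup G] [CompactSpace G] in
theorem full_of_beyond (ℓ : Λ → ℕ) {x : ℕ} (V : ∀ v, G →* GL (Fin 2) (E v)) (H : Subgroup G)
    (h : FullBeyond ℓ x H V) {v : Λ} (hv : x < ℓ v) (ε : ℝ) : Full V H v ε := by
  classical
  intro y hy _
  obtain ⟨g, hg, hgx⟩ := h (Function.update (fun w => 1) v y) (by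
    intro w i j
    by_cases hw : w = v
    · subst hw
      rw [Function.update_self]
      exact hy i j
    · rw [Function.update_of_ne hw]
      rw [Matrix.SpecialLinearGroup.coe_one, Matrix.one_apply]
      split_ifs <;> simp) (by
    intro w hw
    have hwv : w ≠ v := by
      rintro rfl
      omega
    rw [Function.update_of_ne hwv])
  refine ⟨g, hg, ?_, ?_⟩
  · rw [hgx v, Function.update_self]
  · intro w hw
    refine Units.ext ?_
    rw [hgx w, Function.update_of_ne hw, Matrix.SpecialLinearGroup.coe_one, Units.val_one]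

theorem beyond_of_full (ℓ : Λ → ℕ) {x : ℕ} (V : ∀ v, G →* GL (Fin 2) (E v))
    (hV : ∀ v, Continuous (V v)) (H : Subgroup G) (hH : IsClosed (H : Set G))
    (hbig : ∀ v, x < ℓ v → Full V H v 2) : FullBeyond ℓ x H V := by
  classical
  intro y hy hy1
  have key : ∀ F : Finset Λ, ∃ g ∈ H, (∀ v ∈ F, (V v g : Matrix (Fin 2) (Fin 2) (E v)) =
      (y v : Matrix (Fin 2) (Fin 2) (E v))) ∧ ∀ w, w ∉ F → V w g = 1 := by
    intro F
    induction F using Finset.induction_on with
    | empty => exact ⟨1, H.one_mem, by simp, by simp⟩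
    | insert v F hvF ih =>
      obtain ⟨g', hg', h1, h2⟩ := ih
      obtain ⟨a, ha, ha1, ha2⟩ : ∃ a ∈ H, (V v a : Matrix (Fin 2) (Fin 2) (E v)) =
          (y v : Matrix (Fin 2) (Fin 2) (E v)) ∧ ∀ w, w ≠ v → V w a = 1 := by
        by_cases hvS : ℓ v ≤ x
        · refine ⟨1, H.one_mem, ?_, fun w _ => map_one _⟩
          rw [hy1 v hvS, map_one, Matrix.SpecialLinearGroup.coe_one, Units.val_one]
        · exact hbig v (by omega) (y v) (hy v) (near_two (hy v))
      refine ⟨a * g', H.mul_mem ha hg', ?_, ?_⟩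
      · intro u hu
        by_cases huv : u = v
        · subst huv
          rw [map_mul, h2 u hvF, mul_one]
          exact ha1
        · rw [map_mul, ha2 u huv, one_mul]
          exact h1 u ((Finset.mem_insert.1 hu).resolve_left huv)
      · intro w hw
        rw [Finset.mem_insert, not_or] at hw
        rw [map_mul, ha2 w hw.1, h2 w hw.2, mul_one]
  obtain ⟨g, hg1, hg2⟩ := hH.isCompact.inter_iInter_nonempty
    (fun v => {g : G | (V v g : Matrix (Fin 2) (Fin 2) (E v)) =
      (y v : Matrix (Fin 2) (Fin 2) (E v))}) (fun v => closed_eq V hV _) (by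
    intro u
    obtain ⟨g, hg, hgv, _⟩ := key u
    refine ⟨g, hg, ?_⟩
    simp only [Set.mem_iInter]
    intro i hi
    exact hgv i hi)
  exact ⟨g, hg1, fun v => Set.mem_iInter.1 hg2 v⟩

omit [TopologicalSpace G] [IsTopologicalGroup G] [CompactSpace G] in
theorem full_inf_small (V : ∀ v, G →* GL (Fin 2) (E v)) (v : Λ) [CharZero (E v)] {ε : ℝ}
    (hε : 0 < ε) (h : Full V ⊤ v ε) {A B : Subgroup G} [A.Normal] [B.Normal] {a b : ℝ}
    (ha : 0 < a) (hb : 0 < b) (hA : Full V A v a) (hB : Full V B v b) :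
    ∃ ε' : ℝ, 0 < ε' ∧ Full V (A ⊓ B) v ε' := by
  obtain ⟨t, ht0, ht⟩ := NormedField.exists_norm_lt (E v) (lt_min one_pos ha)
  have ht1 : ‖t‖ ≤ 1 := (ht.trans_le (min_le_left _ _)).le
  have ht2 : ‖t‖ < a := ht.trans_le (min_le_right _ _)
  have htn : t ≠ 0 := norm_pos_iff.1 ht0
  obtain ⟨g, hg, hgy, -⟩ := hA ⟨!![1, t; 0, 1], by simp [Matrix.det_fin_two]⟩ (by
      intro i k
      fin_cases i <;> fin_cases k <;> simp [ht1]) (by
      intro i k
      fin_cases i <;> fin_cases k <;> simp [ht2, ha])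
  have hns : Nsc (V v g : Matrix (Fin 2) (Fin 2) (E v)) := by
    rintro ⟨c, hc⟩
    rw [hgy] at hc
    have h1 := congrFun (congrFun hc 0) 1
    simp at h1
    exact htn h1
  obtain ⟨y, hy, hy', hys⟩ := comm_small (V v g) hns hb
  obtain ⟨gy, hgy2, hVgy, _⟩ := hB y hy hy'
  have hc : g * gy * g⁻¹ * gy⁻¹ ∈ A ⊓ B := by
    refine ⟨?_, ?_⟩
    · have h5 : gy * g⁻¹ * gy⁻¹ ∈ A := Subgroup.Normal.conj_mem inferInstance _ (A.inv_mem hg) gy
      have h6 := A.mul_mem hg h5
      have h7 : g * gy * g⁻¹ * gy⁻¹ = g * (gy * g⁻¹ * gy⁻¹) := by group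
      rw [h7]
      exact h6
    · exact B.mul_mem (Subgroup.Normal.conj_mem inferInstance _ hgy2 g) (B.inv_mem hgy2)
  have hVi' : (((V v gy)⁻¹ : GL (Fin 2) (E v)) : Matrix (Fin 2) (Fin 2) (E v)) =
      ((y⁻¹ : Matrix.SpecialLinearGroup (Fin 2) (E v)) : Matrix (Fin 2) (Fin 2) (E v)) := by
    have h4 : V v gy = (y : GL (Fin 2) (E v)) := Units.ext hVgy
    rw [h4, ← Matrix.SpecialLinearGroup.coe_GL_coe_matrix y⁻¹]
    congr 1
    simp
  refine full_of_nsc V v hε h (A ⊓ B) hc ?_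
  have h5 : (V v (g * gy * g⁻¹ * gy⁻¹) : Matrix (Fin 2) (Fin 2) (E v)) =
      (V v g : Matrix (Fin 2) (Fin 2) (E v)) * (y : Matrix (Fin 2) (Fin 2) (E v)) *
        (((V v g)⁻¹ : GL (Fin 2) (E v)) : Matrix (Fin 2) (Fin 2) (E v)) *
        ((y⁻¹ : Matrix.SpecialLinearGroup (Fin 2) (E v)) : Matrix (Fin 2) (Fin 2) (E v)) := by
    rw [map_mul, map_mul, map_mul, map_inv, map_inv, Units.val_mul, Units.val_mul, Units.val_mul,
      hVgy, hVi']
  rw [h5]
  exact hys

omit [TopologicalSpace G] [IsTopologicalGroup G] [CompactSpace G] in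
theorem full_finite (V : ∀ v, G →* GL (Fin 2) (E v)) (v : Λ) [CharZero (E v)] {ε : ℝ}
    (hε : 0 < ε) (h : Full V ⊤ v ε) {I : Type*} [Finite I] (A : I → Subgroup G)
    (hA : ∀ i, (A i).Normal) (hAf : ∀ i, ∃ ε' : ℝ, 0 < ε' ∧ Full V (A i) v ε') :
    ∃ ε' : ℝ, 0 < ε' ∧ Full V (⨅ i, A i) v ε' := by
  classical
  have hfin : Fintype I := Fintype.ofFinite I
  have hF : ∀ F : Finset I, (F.inf A).Normal ∧ ∃ ε' : ℝ, 0 < ε' ∧ Full V (F.inf A) v ε' := by
    intro F
    induction F using Finset.induction_on with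
    | empty =>
      refine ⟨?_, ?_⟩
      · rw [Finset.inf_empty]
        infer_instance
      · rw [Finset.inf_empty]
        exact ⟨ε, hε, h⟩
    | insert i F _ ih =>
      obtain ⟨ih1, e, he, ih2⟩ := ih
      obtain ⟨e', he', h'⟩ := hAf i
      have := hA i
      rw [Finset.inf_insert]
      exact ⟨inferInstance, full_inf_small V v hε h he' he h' ih2⟩
  have h1 := (hF Finset.univ).2
  rw [Finset.inf_univ_eq_iInf] at h1
  exact h1

end Pool.Agent.Helper37.Ub
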