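import Pool.Agent.NLL.Defs

/-!
# Project UB (MP_6cbef8_nt): the relation does not hold near the identity
-/

set_option autoImplicit false

namespace Pool.Agent.Helper37.Ub

open Pool.Agent.NLL

/-- a matrix which is congruent to a unit scalar modulo the maximal ideal is invertible -/
private theorem det_ne {E : Type*} [NontriviallyNormedField E] [IsUltrametricDist E] {ι : Type*}
    [Fintype ι] [DecidableEq ι] (W : Matrix ι ι E) (c : E) (hc : ‖c‖ = 1)
    (h : ∀ i k, ‖W i k - (if i = k then c else 0)‖ < 1) : W.det ≠ 0 := by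
  intro h0
  obtain ⟨x, hx, hWx⟩ := Matrix.exists_mulVec_eq_zero_iff.mpr h0
  obtain ⟨i₀, hi₀⟩ : ∃ i, x i ≠ 0 := by
    by_contra hcon
    push Not at hcon
    exact hx (funext hcon)
  have hne : Nonempty ι := ⟨i₀⟩
  obtain ⟨i, -, hi⟩ := Finset.exists_max_image Finset.univ (fun k => ‖x k‖) ⟨i₀, Finset.mem_univ _⟩
  have hpos : 0 < ‖x i‖ := (norm_pos_iff.mpr hi₀).trans_le (hi i₀ (Finset.mem_univ _))
  have h1 : c * x i = -∑ k, (W i k - (if i = k then c else 0)) * x k := by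
    have h2 := congrFun hWx i
    rw [Matrix.mulVec, dotProduct] at h2
    simp only [sub_mul, Finset.sum_sub_distrib, ite_mul, zero_mul, Finset.sum_ite_eq,
      Finset.mem_univ, if_true]
    rw [h2]
    simp
  have h3 : ‖c * x i‖ < ‖x i‖ := by
    rw [h1, norm_neg]
    obtain ⟨k, -, hk⟩ := IsUltrametricDist.exists_norm_finsetSum_le_of_nonempty
      (Finset.univ_nonempty (α := ι)) (fun k => (W i k - (if i = k then c else 0)) * x k)
    refine hk.trans_lt ?_
    rw [norm_mul]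
    calc ‖W i k - (if i = k then c else 0)‖ * ‖x k‖
        ≤ ‖W i k - (if i = k then c else 0)‖ * ‖x i‖ :=
          mul_le_mul_of_nonneg_left (hi k (Finset.mem_univ _)) (norm_nonneg _)
      _ < 1 * ‖x i‖ := mul_lt_mul_of_pos_right (h i k) hpos
      _ = ‖x i‖ := one_mul _
  rw [norm_mul, hc, one_mul] at h3
  exact lt_irrefl _ h3

theorem rel_ne_zero {E : Type*} [NontriviallyNormedField E] [IsUltrametricDist E] {n : ℕ}
    (d s : E) (T : Matrix (Fin n) (Fin n) E) (hd : ‖d‖ ≤ 1) (hs : ‖s‖ ≤ 1) (hc : ‖2 * d - s‖ = 1)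
    (hT : ∀ i k, ‖T i k - (1 : Matrix (Fin n) (Fin n) E) i k‖ < 1) : (Wm d s T).det ≠ 0 := by
  have hadd : ∀ a b : E, ‖a‖ < 1 → ‖b‖ < 1 → ‖a + b‖ < 1 := fun a b ha hb =>
    (IsUltrametricDist.norm_add_le_max a b).trans_lt (max_lt ha hb)
  have hmul : ∀ a b : E, ‖a‖ ≤ 1 → ‖b‖ < 1 → ‖a * b‖ < 1 := fun a b ha hb => by
    rw [norm_mul]
    calc ‖a‖ * ‖b‖ ≤ 1 * ‖b‖ := mul_le_mul_of_nonneg_right ha (norm_nonneg _)
      _ < 1 := by rw [one_mul]; exact hb
  have hone : ∀ i k, ‖(1 : Matrix (Fin n) (Fin n) E) i k‖ ≤ 1 := by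
    intro i k
    rw [Matrix.one_apply]
    split_ifs
    · rw [norm_one]
    · rw [norm_zero]
      exact zero_le_one
  have hTle : ∀ i k, ‖T i k‖ ≤ 1 := by
    intro i k
    have h1 : T i k = (T i k - (1 : Matrix (Fin n) (Fin n) E) i k) + (1 : Matrix (Fin n) (Fin n) E) i k := by
      ring
    rw [h1]
    exact (IsUltrametricDist.norm_add_le_max _ _).trans (max_le (hT i k).le (hone i k))
  have hTT : ∀ i k, ‖(T * T) i k - (1 : Matrix (Fin n) (Fin n) E) i k‖ < 1 := by
    intro i k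
    have h1 : (T * T) i k - (1 : Matrix (Fin n) (Fin n) E) i k =
        ((T - 1) * T) i k + (T i k - (1 : Matrix (Fin n) (Fin n) E) i k) := by
      have h2 : T * T - 1 = (T - 1) * T + (T - 1) := by noncomm_ring
      have h3 := congrFun (congrFun h2 i) k
      simpa using h3
    rw [h1]
    refine hadd _ _ ?_ (hT i k)
    rw [Matrix.mul_apply]
    by_cases hn : Nonempty (Fin n)
    · obtain ⟨t, -, ht⟩ := IsUltrametricDist.exists_norm_finsetSum_le_of_nonempty
        (Finset.univ_nonempty (α := Fin n)) (fun t => (T - 1) i t * T t k)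
      refine ht.trans_lt ?_
      rw [mul_comm]
      exact hmul _ _ (hTle _ _) (by rw [Matrix.sub_apply]; exact hT _ _)
    · exact absurd ⟨i⟩ hn
  refine det_ne (Wm d s T) (2 * d - s) hc ?_
  rintro ⟨p1, p2⟩ ⟨q1, q2⟩
  have hite : ∀ a b : Fin n, (if a = b then (1 : E) else 0) = (1 : Matrix (Fin n) (Fin n) E) a b :=
    fun a b => by rw [Matrix.one_apply]
  have hprod : (if ((p1, p2) : Fin n × Fin n) = (q1, q2) then (2 * d - s) else 0) =
      (2 * d - s) * ((1 : Matrix (Fin n) (Fin n) E) p1 q1 * (1 : Matrix (Fin n) (Fin n) E) q2 p2) := by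
    rw [Matrix.one_apply, Matrix.one_apply]
    by_cases h1 : p1 = q1
    · by_cases h2 : q2 = p2
      · rw [if_pos h1, if_pos h2, if_pos (by rw [h1, h2])]
        ring
      · rw [if_pos h1, if_neg h2, if_neg (fun h => h2 (Prod.ext_iff.mp h).2.symm)]
        ring
    · rw [if_neg h1, if_neg (fun h => h1 (Prod.ext_iff.mp h).1)]
      ring
  have h21 : (if p2 = q2 then (1 : E) else 0) = (1 : Matrix (Fin n) (Fin n) E) q2 p2 := by
    rw [Matrix.one_apply]
    by_cases h : p2 = q2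
    · rw [if_pos h, if_pos h.symm]
    · rw [if_neg h, if_neg (fun h' => h h'.symm)]
  rw [hprod]
  unfold Wm
  rw [Matrix.of_apply]
  dsimp only
  rw [h21, hite p1 q1]
  have e1 := hTT p1 q1
  have e2 := hTT q2 p2
  have e3 := hT p1 q1
  have e4 := hT q2 p2
  have o1 := hone p1 q1
  have o2 := hone q2 p2
  have e5 := hTle q2 p2
  generalize (T * T) p1 q1 = a at *
  generalize (T * T) q2 p2 = b at *
  generalize T p1 q1 = t at *
  generalize T q2 p2 = u at *
  generalize (1 : Matrix (Fin n) (Fin n) E) p1 q1 = α at *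
  generalize (1 : Matrix (Fin n) (Fin n) E) q2 p2 = β at *
  have hle : ∀ y z : E, ‖y‖ ≤ 1 → ‖z‖ ≤ 1 → ‖y * z‖ ≤ 1 := fun y z hy hz => by
    rw [norm_mul]
    exact mul_le_one₀ hy (norm_nonneg _) hz
  have h1 : d * a * β - s * t * u + d * α * b - (2 * d - s) * (α * β) =
      ((d * β) * (a - α) + (d * α) * (b - β)) + ((-s * u) * (t - α) + (-s * α) * (u - β)) := by
    ring
  rw [h1]
  have hs' : ‖-s‖ ≤ 1 := by rwa [norm_neg]
  exact hadd _ _ (hadd _ _ (hmul _ _ (hle _ _ hd o2) e1) (hmul _ _ (hle _ _ hd o1) e2))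
    (hadd _ _ (hmul _ _ (hle _ _ hs' e5) e3) (hmul _ _ (hle _ _ hs' o1) e4))

end Pool.Agent.Helper37.Ub
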