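import Pool.Agent.NLL.Resid
import Pool.Agent.NLL.Place
import Pool.Agent.UTF.Fam

/-!
# Project UB (MP_6cbef8_nt): a relation at the elements of a set which meets all classes of small
quotients gives potential containment (part of `UniformTorsionFields`)
-/

set_option autoImplicit false

open MeasureTheory Polynomial NumberField Pool.Agent.Helper27.FM Pool.Agent.Helper37.Af
  Pool.Agent.Helper37.Fc

namespace Pool.Agent.Helper37.Ub

/-- the number of monomials of degree at most `m` -/
private theorem frk (σ : Type) (R : Type) [Field R] (m : ℕ) :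
    Module.finrank R (MvPolynomial.restrictTotalDegree σ R m) =
      Nat.card {s : σ →₀ ℕ | (s.sum fun _ e => e) ≤ m} :=
  Module.finrank_eq_nat_card_basis
    (MvPolynomial.basisRestrictSupport R {s : σ →₀ ℕ | (s.sum fun _ e => e) ≤ m})

theorem contained_uniform (n q : ℕ) :
    ∃ K : ℕ, ∀ (p : ℕ) [Fact p.Prime]
        (E : Type) [NontriviallyNormedField E] [IsUltrametricDist E] [ProperSpace E]
        [NormedAlgebra ℚ_[p] E] (A : Finset E), A.card ≤ q →
        (∀ x : E, ‖x‖ ≤ 1 → ∃ a ∈ A, ‖x - a‖ < 1) →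
        ∀ (G : Type) [Group G] [TopologicalSpace G] [IsTopologicalGroup G] [CompactSpace G]
        [TotallyDisconnectedSpace G] (V : G →* GL (Fin 2) E) (T : G →* GL (Fin n) E)
        (M : Type) [Field M] [NumberField M] (ι : M →+* E), Continuous V →
        StronglyIrreducible V → Continuous T → Semisimple T → IdempotentGenerated p V T →
        ∀ (N : Subgroup G) (D : Set G) (f g : G → (𝓞 M)[X]),
        N.Normal → N ≤ V.ker → N ≤ T.ker →
        (∀ U : Subgroup G, U.Normal → IsOpen (U : Set G) → N ≤ U → U.index ≤ K →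
          ∀ y : G, ∃ r ∈ D, ∃ h : G, y⁻¹ * (h * r * h⁻¹) ∈ U) →
        (∀ r ∈ D, (V r : Matrix (Fin 2) (Fin 2) E).charpoly =
            (f r).map (ι.comp (algebraMap (𝓞 M) M)) ∧
          (T r : Matrix (Fin n) (Fin n) E).charpoly =
            (g r).map (ι.comp (algebraMap (𝓞 M) M))) →
        (∀ r ∈ D, NLL.om n (f r) (g r) = 0) →
        PotentiallyContained V T := by
  obtain ⟨d, hd⟩ : ∃ d, d = Nat.card {s : ((Fin 2 × Fin 2) ⊕ (Σ _ : Unit, Fin n × Fin n)) →₀ ℕ |
    (s.sum fun _ e => e) ≤ 4 * (n * n)} := ⟨_, rfl⟩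
  refine ⟨(q ^ d).factorial,
    fun p _ E _ _ _ _ A hAq hA G _ _ _ _ _ V T M _ _ ι hV hirr hT hss hid N D f g
      hN hNV hNT hD hch hrel => ?_⟩
  have hE0 : CharZero E := charZero_of_injective_algebraMap (algebraMap ℚ_[p] E).injective
  obtain ⟨P, hP, hPe, hPn⟩ := NLL.exists_wpoly E n
  have hd' : Module.finrank E
      (MvPolynomial.restrictTotalDegree ((Fin 2 × Fin 2) ⊕ (Σ _ : Unit, Fin n × Fin n)) E
        (4 * (n * n))) = d := by rw [frk, hd]
  have hι : Function.Injective (ι.comp (algebraMap (𝓞 M) M)) :=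
    ι.injective.comp (FaithfulSMul.algebraMap_injective (𝓞 M) M)
  have hgm : ∀ r ∈ D, (g r).Monic := fun r hr =>
    monic_of_injective hι (by rw [← (hch r hr).2]; exact Matrix.charpoly_monic _)
  -- the relation on `G`
  obtain ⟨F, S, hS, hfr, hSF, hF⟩ := exists_polyfun (J := Unit) (n := fun _ => n)
    (T := fun _ => T) hV (fun _ => hT) (4 * (n * n)) P hP
  have hF0 : ∀ y, F y = 0 := by
    refine UTF.det_rel A hA d N D (fun U hU hUo hNU hUi => hD U hU hUo hNU (hUi.trans
      (Nat.factorial_le (Nat.pow_le_pow_left hAq d)))) F S (hd' ▸ hfr) hSF (fun y ν hν => ?_)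
      fun r hr h => ?_
    · rw [hF, hF]
      have e1 : V (y * ν) = V y := by
        rw [map_mul, MonoidHom.mem_ker.mp (hNV hν), mul_one]
      have e2 : T (y * ν) = T y := by
        rw [map_mul, MonoidHom.mem_ker.mp (hNT hν), mul_one]
      rw [e1, e2]
    · rw [hF, hPe]
      have e1 : (V (h * r * h⁻¹) : Matrix (Fin 2) (Fin 2) E).charpoly =
          (f r).map (ι.comp (algebraMap (𝓞 M) M)) := by
        rw [← (hch r hr).1, map_mul, map_mul, map_inv, Units.val_mul, Units.val_mul,
          Matrix.coe_units_inv]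
        exact Matrix.charpoly_units_conj (V h) _
      have e2 : (T (h * r * h⁻¹) : Matrix (Fin n) (Fin n) E).charpoly =
          (g r).map (ι.comp (algebraMap (𝓞 M) M)) := by
        rw [← (hch r hr).2, map_mul, map_mul, map_inv, Units.val_mul, Units.val_mul,
          Matrix.coe_units_inv]
        exact Matrix.charpoly_units_conj (T h) _
      rw [NLL.om_map (ι.comp (algebraMap (𝓞 M) M)) (f r) (g r) (hgm r hr) _ _ e1 e2, hrel r hr,
        map_zero]
  -- conclusion
  let _ : MeasurableSpace G := borel G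
  have : BorelSpace G := ⟨rfl⟩
  have hpr : PolynomiallyRelated (Measure.haar : Measure G) V (fun _ : Unit => T) := by
    refine ⟨P, fun h0 => ?_⟩
    have h1 : (Set.univ : Set G) ⊆ {g | MvPolynomial.eval (ent (V g : Matrix (Fin 2) (Fin 2) E)
        (fun _ : Unit => (T g : Matrix (Fin n) (Fin n) E))) P = 0 ∧
        ∃ x : Matrix (Fin 2) (Fin 2) E, x.det = (V g : Matrix (Fin 2) (Fin 2) E).det ∧
          MvPolynomial.eval (ent x (fun _ : Unit => (T g : Matrix (Fin n) (Fin n) E))) P ≠ 0} := by
      intro y _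
      exact ⟨by rw [← hF]; exact hF0 y, hPn (T y) (V y : Matrix (Fin 2) (Fin 2) E).det⟩
    have h2 := measure_mono_null h1 h0
    exact (isOpen_univ.measure_ne_zero _ Set.univ_nonempty) h2
  obtain ⟨j, hj⟩ := adOccurs_of_related p (Measure.haar : Measure G) V hV hirr
    (fun _ : Unit => n) (fun _ => T) (fun _ => hT) hpr
  exact contained_of_adOccurs p hV hirr hT hss hid hj

end Pool.Agent.Helper37.Ub
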