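import Pool.Agent.NLL.Size

/-!
# Project UB (MP_6cbef8_nt): a small algebraic integer in the maximal ideal of a place
-/

set_option autoImplicit false

open Polynomial NumberField

namespace Pool.Agent.Helper37.Ub

open Pool.Agent.NLL

private lemma norm_le_one' {M : Type*} [Field M] [NumberField M] {E : Type*}
    [NontriviallyNormedField E] [IsUltrametricDist E] (j : M →+* E) (x : 𝓞 M) :
    ‖j (x : M)‖ ≤ 1 := by
  have h1 : IsIntegral ℤ (x : M) := RingOfIntegers.isIntegral_coe x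
  have h2 : IsIntegral ℤ (j (x : M)) := h1.map j.toIntAlgHom
  have h3 : IsIntegral (NormedField.valuation (K := E)).integer (j (x : M)) := h2.tower_top
  have h4 := (Valuation.integer.integers (NormedField.valuation (K := E))).mem_of_integral h3
  rw [Valuation.mem_integer_iff, NormedField.valuation_apply] at h4
  exact_mod_cast h4

/-- the residue field of `M` at a place -/
private theorem place_field {M : Type} [Field M] [NumberField M] {l : ℕ} [hl : Fact l.Prime]
    {E : Type} [NontriviallyNormedField E] [IsUltrametricDist E] [NormedAlgebra ℚ_[l] E]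
    (j : M →+* E) : ∃ (k : Type) (_ : Field k) (_ : Finite k) (φ : 𝓞 M →+* k),
      Function.Surjective φ ∧ (∀ x : 𝓞 M, ‖j (x : M)‖ < 1 → φ x = 0) ∧ l ≤ Nat.card k := by
  classical
  obtain ⟨P, hP⟩ : ∃ P : Ideal (𝓞 M), ∀ x : 𝓞 M, x ∈ P ↔ ‖j (x : M)‖ < 1 := by
    refine ⟨{ carrier := {x | ‖j (x : M)‖ < 1}
              zero_mem' := by simp
              add_mem' := ?_
              smul_mem' := ?_ }, fun x => Iff.rfl⟩
    · intro x y hx hy
      show ‖j ((x + y : 𝓞 M) : M)‖ < 1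
      have e : j ((x + y : 𝓞 M) : M) = j (x : M) + j (y : M) := by simp
      rw [e]
      exact (IsUltrametricDist.norm_add_le_max _ _).trans_lt (max_lt hx hy)
    · intro c x hx
      show ‖j ((c • x : 𝓞 M) : M)‖ < 1
      have e : j ((c • x : 𝓞 M) : M) = j (c : M) * j (x : M) := by simp
      rw [e, norm_mul]
      calc ‖j (c : M)‖ * ‖j (x : M)‖ ≤ 1 * ‖j (x : M)‖ :=
            mul_le_mul_of_nonneg_right (norm_le_one' j c) (norm_nonneg _)
        _ < 1 := by rw [one_mul]; exact hx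
  have hlP : ((l : ℕ) : 𝓞 M) ∈ P := by
    rw [hP]
    have e : j (((l : ℕ) : 𝓞 M) : M) = algebraMap ℚ_[l] E ((l : ℕ) : ℚ_[l]) := by simp
    rw [e, norm_algebraMap']
    exact Padic.norm_p_lt_one
  have hprime : P.IsPrime := by
    refine ⟨?_, ?_⟩
    · intro h
      have h1 : (1 : 𝓞 M) ∈ P := by rw [h]; trivial
      rw [hP] at h1
      simp at h1
    · intro x y hxy
      have e : j ((x * y : 𝓞 M) : M) = j (x : M) * j (y : M) := by simp
      rw [hP, e, norm_mul] at hxy
      rw [hP, hP]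
      by_contra hcon
      push Not at hcon
      have h1 : 1 * 1 ≤ ‖j (x : M)‖ * ‖j (y : M)‖ :=
        mul_le_mul hcon.1 hcon.2 zero_le_one (norm_nonneg _)
      linarith
  have hne : P ≠ ⊥ := by
    intro h
    rw [h, Ideal.mem_bot] at hlP
    exact hl.out.ne_zero (by exact_mod_cast hlP)
  have hmax : P.IsMaximal := hprime.isMaximal hne
  let _ : Field (𝓞 M ⧸ P) := Ideal.Quotient.field P
  have hcard : Nat.card (𝓞 M ⧸ P) ≠ 0 := by
    have h1 : Ideal.absNorm P = Nat.card (𝓞 M ⧸ P) := by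
      rw [Ideal.absNorm_apply, Submodule.cardQuot_apply]
    rw [← h1, Ne, Ideal.absNorm_eq_zero_iff]
    exact hne
  have hfin : Finite (𝓞 M ⧸ P) := Nat.finite_of_card_ne_zero hcard
  refine ⟨𝓞 M ⧸ P, inferInstance, hfin, Ideal.Quotient.mk P, Ideal.Quotient.mk_surjective,
    fun x hx => ?_, ?_⟩
  · rw [Ideal.Quotient.eq_zero_iff_mem, hP]
    exact hx
  · have h1 : l • (1 : 𝓞 M ⧸ P) = 0 := by
      rw [nsmul_eq_mul, mul_one, ← map_natCast (Ideal.Quotient.mk P), Ideal.Quotient.eq_zero_iff_mem]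
      exact hlP
    have h2 : addOrderOf (1 : 𝓞 M ⧸ P) = l := addOrderOf_eq_prime h1 one_ne_zero
    have h3 := addOrderOf_dvd_natCard (1 : 𝓞 M ⧸ P)
    rw [h2] at h3
    exact Nat.le_of_dvd (Nat.pos_of_ne_zero hcard) h3

theorem om_zero_of_place {M : Type} [Field M] [NumberField M] {l : ℕ} [hl : Fact l.Prime]
    {E : Type} [NontriviallyNormedField E] [IsUltrametricDist E] [NormedAlgebra ℚ_[l] E]
    (j : M →+* E) {n : ℕ} (f g : (𝓞 M)[X]) (V : Matrix (Fin 2) (Fin 2) E)
    (T : Matrix (Fin n) (Fin n) E) (hV : V.charpoly = f.map (j.comp (algebraMap (𝓞 M) M)))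
    (hT : T.charpoly = g.map (j.comp (algebraMap (𝓞 M) M)))
    (hlt : ‖(Wm V.det (V.trace ^ 2 - 2 * V.det) T).det‖ < 1) {c : ℝ} {x : ℕ}
    (hc : ∀ (σ : M →+* ℂ) (z : ℂ), f.eval₂ (σ.comp (algebraMap (𝓞 M) M)) z = 0 ∨
      g.eval₂ (σ.comp (algebraMap (𝓞 M) M)) z = 0 → ‖z‖ ≤ c)
    (hx : (2 * c ^ 2) ^ (2 * n ^ 2 * Module.finrank ℚ M) ≤ (x : ℝ)) (hxl : x < l) :
    om n f g = 0 := by
  have hι : Function.Injective (j.comp (algebraMap (𝓞 M) M)) :=
    j.injective.comp (FaithfulSMul.algebraMap_injective (𝓞 M) M)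
  have hfm : f.Monic := monic_of_injective hι (by rw [← hV]; exact Matrix.charpoly_monic _)
  have hgm : g.Monic := monic_of_injective hι (by rw [← hT]; exact Matrix.charpoly_monic _)
  have hf2 : f.natDegree = 2 := by
    rw [← natDegree_map_eq_of_injective hι, ← hV, Matrix.charpoly_natDegree_eq_dim,
      Fintype.card_fin]
  have hgn : g.natDegree = n := by
    rw [← natDegree_map_eq_of_injective hι, ← hT, Matrix.charpoly_natDegree_eq_dim,
      Fintype.card_fin]
  obtain ⟨k, _, _, φ, hφ, hφ0, hlk⟩ := place_field j (l := l)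
  have hc0 : 0 ≤ c := by
    obtain ⟨σ⟩ : Nonempty (M →+* ℂ) := inferInstance
    have hdeg : (f.map (σ.comp (algebraMap (𝓞 M) M))).degree ≠ 0 := by
      rw [degree_eq_natDegree (hfm.map _).ne_zero, hfm.natDegree_map, hf2]
      norm_num
    obtain ⟨w, hw⟩ := IsAlgClosed.exists_root _ hdeg
    rw [IsRoot, eval_map] at hw
    exact (norm_nonneg w).trans (hc σ w (Or.inl hw))
  refine om_eq_zero hfm hgm hf2 hgn hc0 (fun σ z hz => hc σ z (Or.inl hz))
    (fun σ z hz => hc σ z (Or.inr hz)) φ hφ (hφ0 _ ?_) ?_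
  · rw [om_map (j.comp (algebraMap (𝓞 M) M)) f g hgm V T hV hT] at hlt
    exact hlt
  · have h1 : (x : ℝ) < (Nat.card k : ℝ) := by exact_mod_cast hxl.trans_le hlk
    linarith

end Pool.Agent.Helper37.Ub
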