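import Pool.Agent.Helper37.Ad.Main
import Pool.Agent.Helper37.Ub.Beyond
import Pool.Agent.Helper37.Ub.Rel
import Pool.Agent.Helper37.Ub.Size
import Pool.Agent.Helper37.Ub.Near

/-!
# Project UB (MP_6cbef8_nt): the adelic dichotomy for families of torsion fields
-/

set_option autoImplicit false

open NumberField Polynomial

namespace Pool.Agent.Helper37.Ub

open Pool.Agent.Helper27.FM Pool.Agent.Helper37.Af Pool.Agent.Helper37.Fd Pool.Agent.NLL
  Pool.Agent.Helper37.Ad

private theorem bc_cont {p : ℕ} [Fact p.Prime] (E : Type*) [NontriviallyNormedField E]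
    [NormedAlgebra ℚ_[p] E] {G : Type*} [Group G] [TopologicalSpace G] {n : ℕ}
    {T : G →* GL (Fin n) ℚ_[p]} (hT : Continuous T) : Continuous (baseChange E T) := by
  have h1 : Continuous fun g => (T g : Matrix (Fin n) (Fin n) ℚ_[p]) :=
    Units.continuous_val.comp hT
  have h2 : Continuous fun g =>
      (((T g)⁻¹ : GL (Fin n) ℚ_[p]) : Matrix (Fin n) (Fin n) ℚ_[p]) :=
    Units.continuous_coe_inv.comp hT
  refine Units.continuous_iff.mpr ⟨?_, ?_⟩
  · refine continuous_matrix fun a b => ?_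
    exact (continuous_algebraMap ℚ_[p] E).comp ((continuous_apply_apply a b).comp h1)
  · refine continuous_matrix fun a b => ?_
    exact (continuous_algebraMap ℚ_[p] E).comp ((continuous_apply_apply a b).comp h2)

private theorem wm_cont {E : Type*} [NontriviallyNormedField E] {G : Type*} [TopologicalSpace G]
    {n : ℕ} {A : G → Matrix (Fin 2) (Fin 2) E} {B : G → Matrix (Fin n) (Fin n) E}
    (hA : Continuous A) (hB : Continuous B) :
    Continuous fun g => (Wm (A g).det ((A g).trace ^ 2 - 2 * (A g).det) (B g)).det := by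
  refine Continuous.matrix_det ?_
  refine continuous_matrix fun p q => ?_
  have hd : Continuous fun g => (A g).det := hA.matrix_det
  have ht : Continuous fun g => (A g).trace := hA.matrix_trace
  have hBB : Continuous fun g => B g * B g := hB.matrix_mul hB
  have hB1 : ∀ i j, Continuous fun g => B g i j := fun i j => hB.matrix_elem i j
  have hB2 : ∀ i j, Continuous fun g => (B g * B g) i j := fun i j => hBB.matrix_elem i j
  simp only [Wm, Matrix.of_apply]
  have := hB1 p.1 q.1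
  have := hB1 q.2 p.2
  have := hB2 p.1 q.1
  have := hB2 q.2 p.2
  fun_prop

section

variable {M : Type} [Field M] [NumberField M] {Λ : Type} (ℓ : Λ → ℕ) [∀ v, Fact (ℓ v).Prime]
  (E : Λ → Type) [∀ v, NontriviallyNormedField (E v)] [∀ v, IsUltrametricDist (E v)]
  [∀ v, NormedAlgebra ℚ_[ℓ v] (E v)] (j : ∀ v, M →+* E v)
  (F : Λ → Type) [∀ v, NontriviallyNormedField (F v)] [∀ v, IsUltrametricDist (F v)]
  [∀ v, NormedAlgebra ℚ_[ℓ v] (F v)] (φ : ∀ v, E v →ₐ[ℚ_[ℓ v]] F v)
  {G : Type} [Group G] [TopologicalSpace G] [IsTopologicalGroup G] [CompactSpace G]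
  [TotallyDisconnectedSpace G]
  (V : ∀ v, G →* GL (Fin 2) (E v)) {n : ℕ} (T : ∀ (l : ℕ) [Fact l.Prime], G →* GL (Fin n) ℚ_[l])
  (f g : G → (𝓞 M)[X])

omit [∀ v, IsUltrametricDist (E v)] [∀ v, IsUltrametricDist (F v)] [TopologicalSpace G]
  [IsTopologicalGroup G] [CompactSpace G] [TotallyDisconnectedSpace G] in
/-- the characteristic polynomials over the extension `F v` -/
private theorem matF (v : Λ) (r : G) (h : Matches ℓ E j V T f g v r) :
    (extend (φ v : E v →+* F v) (V v) r : Matrix (Fin 2) (Fin 2) (F v)).charpoly =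
      (f r).map (((φ v : E v →+* F v).comp (j v)).comp (algebraMap (𝓞 M) M)) ∧
    (baseChange (F v) (T (ℓ v)) r : Matrix (Fin n) (Fin n) (F v)).charpoly =
      (g r).map (((φ v : E v →+* F v).comp (j v)).comp (algebraMap (𝓞 M) M)) := by
  refine ⟨?_, ?_⟩
  · rw [RingHom.comp_assoc, ← Polynomial.map_map, ← h.1, ← Matrix.charpoly_map]
    rfl
  · rw [RingHom.comp_assoc, ← Polynomial.map_map, ← h.2, ← Matrix.charpoly_map]
    congr 1
    ext a b
    exact ((φ v).commutes _).symm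

omit [∀ v, IsUltrametricDist (E v)] [∀ v, IsUltrametricDist (F v)] [TopologicalSpace G]
  [IsTopologicalGroup G] [CompactSpace G] [TotallyDisconnectedSpace G] in
/-- the relation at a place over the extension `F v` -/
private theorem rel_eqF (v : Λ) (r : G) (h : Matches ℓ E j V T f g v r) :
    (Wm (extend (φ v : E v →+* F v) (V v) r : Matrix (Fin 2) (Fin 2) (F v)).det
      ((extend (φ v : E v →+* F v) (V v) r : Matrix (Fin 2) (Fin 2) (F v)).trace ^ 2 -
        2 * (extend (φ v : E v →+* F v) (V v) r : Matrix (Fin 2) (Fin 2) (F v)).det)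
      (baseChange (F v) (T (ℓ v)) r : Matrix (Fin n) (Fin n) (F v))).det =
      φ v (j v (om n (f r) (g r) : 𝓞 M)) := by
  have hι : Function.Injective ((j v).comp (algebraMap (𝓞 M) M)) :=
    (j v).injective.comp (FaithfulSMul.algebraMap_injective (𝓞 M) M)
  have hg : (g r).Monic := by
    apply monic_of_injective hι
    rw [← h.2]
    exact Matrix.charpoly_monic _
  obtain ⟨h1, h2⟩ := matF ℓ E j F φ V T f g v r h
  exact om_map (((φ v : E v →+* F v).comp (j v)).comp (algebraMap (𝓞 M) M)) (f r) (g r) hg _ _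
    h1 h2

/-- a relation at many elements gives potential containment -/
private theorem contained_of_rel (v : Λ) [FiniteDimensional ℚ_[ℓ v] (E v)]
    [FiniteDimensional ℚ_[ℓ v] (F v)] (Φ : Finset Λ)
    (hvF : v ∈ Φ) (hV : Continuous (V v)) (hT : Continuous (T (ℓ v)))
    (hirr : StronglyIrreducible (V v))
    (hss : Semisimple (baseChange (F v) (T (ℓ v))))
    (hgen : IdempotentGenerated (ℓ v) (extend (φ v : E v →+* F v) (V v))
      (baseChange (F v) (T (ℓ v))))
    (hD : Dense {r | ∀ w ∈ Φ, Matches ℓ E j V T f g w r})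
    (U : Subgroup G) (hU : IsOpen (U : Set G))
    (h : ∀ r ∈ U, (∀ w ∈ Φ, Matches ℓ E j V T f g w r) → om n (f r) (g r) = 0) :
    PotentiallyContained (extend (φ v : E v →+* F v) (V v)) (baseChange (F v) (T (ℓ v))) := by
  have : CompleteSpace (F v) := FiniteDimensional.complete ℚ_[ℓ v] (F v)
  have hV' := continuous_extend (φ v) hV
  refine contained_of_om (ℓ v) _ (baseChange (F v) (T (ℓ v))) hV' (bc_cont (F v) hT)
    (strIrr_extend _ hirr) hss hgen U hU ?_
  -- the set of zeros is closed and contains a dense subset of `U`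
  have hcont := wm_cont (Units.continuous_val.comp hV')
    (Units.continuous_val.comp (bc_cont (F v) hT))
  have hcl := isClosed_singleton.preimage hcont (t := ({0} : Set (F v)))
  have hdense : (U : Set G) ⊆ closure ((U : Set G) ∩
      {r | ∀ w ∈ Φ, Matches ℓ E j V T f g w r}) := hD.open_subset_closure_inter hU
  intro x hx
  have h1 : x ∈ closure ((U : Set G) ∩ {r | ∀ w ∈ Φ, Matches ℓ E j V T f g w r}) :=
    hdense hx
  have h2 : (U : Set G) ∩ {r | ∀ w ∈ Φ, Matches ℓ E j V T f g w r} ⊆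
      (fun a => (Wm (extend (φ v : E v →+* F v) (V v) a : Matrix (Fin 2) (Fin 2) (F v)).det
      ((extend (φ v : E v →+* F v) (V v) a : Matrix (Fin 2) (Fin 2) (F v)).trace ^ 2 -
        2 * (extend (φ v : E v →+* F v) (V v) a : Matrix (Fin 2) (Fin 2) (F v)).det)
      (baseChange (F v) (T (ℓ v)) a : Matrix (Fin n) (Fin n) (F v))).det) ⁻¹' {0} := by
    rintro r ⟨hrU, hrF⟩
    have h3 := rel_eqF ℓ E j F φ V T f g v r (hrF v hvF)
    rw [h r hrU hrF] at h3
    rw [Set.mem_preimage, Set.mem_singleton_iff, h3]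
    simp
  exact (hcl.closure_subset_iff.mpr h2) h1

/-- potential containment at one place implies potential containment at all places -/
private theorem transfer [∀ v, FiniteDimensional ℚ_[ℓ v] (E v)]
    [∀ v, FiniteDimensional ℚ_[ℓ v] (F v)]
    (hV : ∀ v, Continuous (V v)) (hT : ∀ (l : ℕ) [Fact l.Prime], Continuous (T l))
    (hirr : ∀ v, StronglyIrreducible (V v))
    (hss : ∀ v, Semisimple (baseChange (F v) (T (ℓ v))))
    (hgen : ∀ v, IdempotentGenerated (ℓ v) (extend (φ v : E v →+* F v) (V v))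
      (baseChange (F v) (T (ℓ v))))
    (hD : ∀ Φ : Finset Λ, Dense {r | ∀ v ∈ Φ, Matches ℓ E j V T f g v r})
    (v w : Λ) (h : PotentiallyContained (extend (φ v : E v →+* F v) (V v))
      (baseChange (F v) (T (ℓ v)))) :
    PotentiallyContained (extend (φ w : E w →+* F w) (V w)) (baseChange (F w) (T (ℓ w))) := by
  classical
  obtain ⟨U, hU, i, hi, hUi⟩ := h
  refine contained_of_rel ℓ E j F φ V T f g w {v, w} (by simp) (hV w) (hT _) (hirr w) (hss w)
    (hgen w) (hD _) U hU ?_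
  intro r hrU hrF
  have h1 := om_of_contained _ _ i hi (hUi r hrU)
  rw [rel_eqF ℓ E j F φ V T f g v r (hrF v (by simp))] at h1
  rw [map_eq_zero, map_eq_zero] at h1
  exact_mod_cast h1

omit [∀ v, IsUltrametricDist (E v)] [TopologicalSpace G] [IsTopologicalGroup G] [CompactSpace G]
  [TotallyDisconnectedSpace G] in
/-- the relation at a place is the image of a number of `M` -/
private theorem rel_eq (v : Λ) (r : G) (h : Matches ℓ E j V T f g v r) :
    (Wm (V v r : Matrix (Fin 2) (Fin 2) (E v)).det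
      ((V v r : Matrix (Fin 2) (Fin 2) (E v)).trace ^ 2 -
        2 * (V v r : Matrix (Fin 2) (Fin 2) (E v)).det)
      (baseChange (E v) (T (ℓ v)) r : Matrix (Fin n) (Fin n) (E v))).det =
      j v (om n (f r) (g r) : 𝓞 M) := by
  have hι : Function.Injective ((j v).comp (algebraMap (𝓞 M) M)) :=
    (j v).injective.comp (FaithfulSMul.algebraMap_injective (𝓞 M) M)
  have hg : (g r).Monic := by
    apply monic_of_injective hι
    rw [← h.2]
    exact Matrix.charpoly_monic _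
  exact om_map ((j v).comp (algebraMap (𝓞 M) M)) (f r) (g r) hg _ _ h.1 h.2

omit [∀ v, IsUltrametricDist (E v)] [CompactSpace G] [TotallyDisconnectedSpace G] in
/-- a relation at many elements of an open subgroup holds on the subgroup -/
private theorem rel_on (v : Λ) (Φ : Finset Λ) (hvF : v ∈ Φ) (hV : Continuous (V v))
    (hT : Continuous (T (ℓ v)))
    (hD : Dense {r | ∀ w ∈ Φ, Matches ℓ E j V T f g w r})
    (U : Subgroup G) (hU : IsOpen (U : Set G))
    (h : ∀ r ∈ U, (∀ w ∈ Φ, Matches ℓ E j V T f g w r) → om n (f r) (g r) = 0) :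
    ∀ y ∈ U, (Wm (V v y : Matrix (Fin 2) (Fin 2) (E v)).det
      ((V v y : Matrix (Fin 2) (Fin 2) (E v)).trace ^ 2 -
        2 * (V v y : Matrix (Fin 2) (Fin 2) (E v)).det)
      (baseChange (E v) (T (ℓ v)) y : Matrix (Fin n) (Fin n) (E v))).det = 0 := by
  have hcont := wm_cont (Units.continuous_val.comp hV)
    (Units.continuous_val.comp (bc_cont (E v) hT))
  have hcl := isClosed_singleton.preimage hcont (t := ({0} : Set (E v)))
  have hdense : (U : Set G) ⊆ closure ((U : Set G) ∩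
      {r | ∀ w ∈ Φ, Matches ℓ E j V T f g w r}) := hD.open_subset_closure_inter hU
  intro x hx
  have h1 : x ∈ closure ((U : Set G) ∩ {r | ∀ w ∈ Φ, Matches ℓ E j V T f g w r}) :=
    hdense hx
  have h2 : (U : Set G) ∩ {r | ∀ w ∈ Φ, Matches ℓ E j V T f g w r} ⊆
      (fun a => (Wm (V v a : Matrix (Fin 2) (Fin 2) (E v)).det
      ((V v a : Matrix (Fin 2) (Fin 2) (E v)).trace ^ 2 -
        2 * (V v a : Matrix (Fin 2) (Fin 2) (E v)).det)
      (baseChange (E v) (T (ℓ v)) a : Matrix (Fin n) (Fin n) (E v))).det) ⁻¹' {0} := by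
    rintro r ⟨hrU, hrF⟩
    have h3 := rel_eq ℓ E j V T f g v r (hrF v hvF)
    rw [h r hrU hrF] at h3
    rw [Set.mem_preimage, Set.mem_singleton_iff, h3]
    simp
  exact (hcl.closure_subset_iff.mpr h2) h1

private theorem diag_pow {K : Type*} [Field K] (a b : K) (k : ℕ) :
    (!![a, 0; 0, b] : Matrix (Fin 2) (Fin 2) K) ^ k = !![a ^ k, 0; 0, b ^ k] := by
  induction k with
  | zero => simp [Matrix.one_fin_two]
  | succ k ih =>
    rw [pow_succ, ih, Matrix.mul_fin_two]
    simp [pow_succ]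

private theorem norm_nat_one {p : ℕ} [hp : Fact p.Prime] (K : Type*) [NontriviallyNormedField K]
    [NormedAlgebra ℚ_[p] K] {m : ℕ} (h : p.Coprime m) : ‖(m : K)‖ = 1 := by
  have h1 : (m : K) = algebraMap ℚ_[p] K ((m : ℕ) : ℚ_[p]) := by
    rw [map_natCast]
  rw [h1, norm_algebraMap', Padic.norm_natCast_eq_one_iff]
  exact h

private theorem norm30 {p : ℕ} [hp : Fact p.Prime] (K : Type*) [NontriviallyNormedField K]
    [NormedAlgebra ℚ_[p] K] (h7 : 7 ≤ p) : ‖(30 : K)‖ = 1 := by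
  have h1 : (30 : K) = ((30 : ℕ) : K) := by norm_num
  rw [h1]
  refine norm_nat_one (p := p) K ?_
  rw [hp.out.coprime_iff_not_dvd]
  intro hdv
  have h30' : p ∣ 2 * 3 * 5 := by simpa using hdv
  rcases (Nat.Prime.dvd_mul hp.out).1 h30' with h3 | h3
  · rcases (Nat.Prime.dvd_mul hp.out).1 h3 with h4 | h4
    · have := Nat.le_of_dvd (by norm_num) h4
      omega
    · have := Nat.le_of_dvd (by norm_num) h4
      omega
  · have := Nat.le_of_dvd (by norm_num) h3
    omega

omit [∀ v, NormedAlgebra ℚ_[ℓ v] (E v)] [∀ v, Fact (ℓ v).Prime] in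
private theorem scalar_iff {K : Type*} [NontriviallyNormedField K] [IsUltrametricDist K]
    {A : Matrix (Fin 2) (Fin 2) K} (hA : Itg A) :
    ¬ NSm A ↔ ‖A 0 1‖ < 1 ∧ ‖A 1 0‖ < 1 ∧ ‖A 0 0 - A 1 1‖ < 1 := by
  unfold NSm
  push Not
  constructor
  · rintro ⟨h1, h2, h3⟩
    refine ⟨lt_of_le_of_ne (hA 0 1) h1, lt_of_le_of_ne (hA 1 0) h2, lt_of_le_of_ne ?_ h3⟩
    rw [sub_eq_add_neg]
    refine (IsUltrametricDist.norm_add_le_max _ _).trans (max_le (hA 0 0) ?_)
    rw [norm_neg]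
    exact hA 1 1
  · rintro ⟨h1, h2, h3⟩
    exact ⟨h1.ne, h2.ne, h3.ne⟩

omit [∀ v, IsUltrametricDist (F v)] [TotallyDisconnectedSpace G] in
/-- potential containment implies residual containment at some large place -/
private theorem resid (hV : ∀ v, Continuous (V v))
    (hVi : ∀ v g, Itg (V v g : Matrix (Fin 2) (Fin 2) (E v)))
    (hT : ∀ (l : ℕ) [Fact l.Prime], Continuous (T l))
    (hTi : ∀ (l : ℕ) [Fact l.Prime] (y : G), Itg (T l y : Matrix (Fin n) (Fin n) ℚ_[l]))
    (hD : ∀ Φ : Finset Λ, Dense {r | ∀ v ∈ Φ, Matches ℓ E j V T f g v r})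
    {x : ℕ} (hx7 : 7 ≤ x) (hxf : FullBeyond ℓ x ⊤ V) (hunb : ∀ N, ∃ v, N < ℓ v)
    (v : Λ) (h : PotentiallyContained (extend (φ v : E v →+* F v) (V v))
      (baseChange (F v) (T (ℓ v)))) : ∃ w, x < ℓ w ∧ ScalarAt ℓ V T w := by
  classical
  obtain ⟨U, hU, i, hi, hUi⟩ := h
  have hUf : Finite (G ⧸ U) := Subgroup.quotient_finite_of_isOpen U hU
  have hUfi : U.FiniteIndex := Subgroup.finiteIndex_of_finite_quotient
  obtain ⟨w, hw⟩ := hunb (x + 2 ^ (2 * U.index))
  have hwx : x < ℓ w := (Nat.le_add_right _ _).trans_lt hw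
  have hwp : 2 ^ (2 * U.index) < ℓ w := (Nat.le_add_left _ _).trans_lt hw
  refine ⟨w, hwx, ?_⟩
  intro y hy
  by_contra hcon
  have hns : NSm (V w y : Matrix (Fin 2) (Fin 2) (E w)) := by
    by_contra hno
    exact hcon ((scalar_iff (hVi w y)).1 hno)
  have hf2 := full_of_beyond ℓ V ⊤ hxf (v := w) hwx 2
  have h30 : ‖(30 : E w)‖ = 1 := norm30 (p := ℓ w) (E w) (hx7.trans hwx.le)
  obtain ⟨A, hAn, -, -, -, hA0, -⟩ := exists_levels (T (ℓ w)) (hT _) (hTi _)
  have := hAn 0
  have hfA : Full V (A 0) w 2 := full_of_nsm V w h30 (hVi w) hf2 (A 0) ((hA0 y).2 hy) hns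
  have h2ne : (2 : E w) ≠ 0 := by
    intro h0
    have h1 : (30 : E w) = 15 * 2 := by norm_num
    rw [h1, h0, mul_zero, norm_zero] at h30
    exact zero_ne_one h30
  have hpr : (ℓ w).Prime := Fact.out
  have hn2 : ‖(2 : E w)‖ = 1 := by
    have h1 : (2 : E w) = ((2 : ℕ) : E w) := by norm_num
    rw [h1]
    refine norm_nat_one (p := ℓ w) (E w) ?_
    rw [hpr.coprime_iff_not_dvd]
    intro hdv
    have h3 := Nat.le_of_dvd (by norm_num) hdv
    exact absurd (h3.trans_lt ((show 2 < 7 by norm_num).trans_le (hx7.trans hwx.le))) (lt_irrefl _)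
  obtain ⟨s, hs⟩ : ∃ s : Matrix.SpecialLinearGroup (Fin 2) (E w),
      (s : Matrix (Fin 2) (Fin 2) (E w)) = !![2, 0; 0, 2⁻¹] :=
    ⟨⟨!![2, 0; 0, 2⁻¹], by rw [Matrix.det_fin_two_of]; simp [h2ne]⟩, rfl⟩
  have hsi : Itg (s : Matrix (Fin 2) (Fin 2) (E w)) := by
    intro a b
    rw [hs]
    fin_cases a <;> fin_cases b <;> simp [hn2]
  obtain ⟨g₀, hg₀, hgs, -⟩ := hfA s hsi (near_two hsi)
  obtain ⟨k, hk0, hkm, hkU⟩ := Subgroup.exists_pow_mem_of_index_ne_zero hUfi.index_ne_zero g₀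
  have hk1 : ∀ a b, ‖(T (ℓ w) (g₀ ^ k) : Matrix (Fin n) (Fin n) ℚ_[ℓ w]) a b -
      (1 : Matrix (Fin n) (Fin n) ℚ_[ℓ w]) a b‖ < 1 := (hA0 _).1 ((A 0).pow_mem hg₀ k)
  have hVk : (V w (g₀ ^ k) : Matrix (Fin 2) (Fin 2) (E w)) = !![2 ^ k, 0; 0, (2⁻¹) ^ k] := by
    rw [map_pow, Units.val_pow_eq_pow_val, hgs, hs, diag_pow]
  have hrel := rel_on ℓ E j V T f g w {v, w} (by simp) (hV w) (hT _) (hD _) U hU (by
    intro r hrU hrF
    have h1 := om_of_contained _ _ i hi (hUi r hrU)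
    rw [rel_eqF ℓ E j F φ V T f g v r (hrF v (by simp))] at h1
    rw [map_eq_zero, map_eq_zero] at h1
    exact_mod_cast h1) _ hkU
  refine rel_ne_zero _ _ _ ?_ ?_ ?_ ?_ hrel
  · rw [hVk, Matrix.det_fin_two_of]
    simp [← mul_pow, h2ne]
  · rw [hVk, Matrix.det_fin_two_of, Matrix.trace_fin_two_of]
    have e : ((2 : E w) ^ k + 2⁻¹ ^ k) ^ 2 - 2 * (2 ^ k * 2⁻¹ ^ k - 0 * 0) =
        (2 ^ k) ^ 2 + (2⁻¹ ^ k) ^ 2 := by ring
    rw [e]
    refine (IsUltrametricDist.norm_add_le_max _ _).trans (max_le ?_ ?_)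
    · rw [norm_pow, norm_pow, hn2]
      simp
    · rw [norm_pow, norm_pow, norm_inv, hn2]
      simp
  · rw [hVk, Matrix.det_fin_two_of, Matrix.trace_fin_two_of]
    have hp1 : (2 : E w) ^ k * 2⁻¹ ^ k = 1 := by
      rw [← mul_pow, mul_inv_cancel₀ h2ne, one_pow]
    have key : ∀ a b : E w, a * b = 1 →
        2 * (a * b - 0 * 0) - ((a + b) ^ 2 - 2 * (a * b - 0 * 0)) = -((a * a - 1) * b) ^ 2 := by
      intro a b h
      have h1 : (a * a - 1) * b = a - b := by linear_combination a * h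
      rw [h1]
      ring
    have e : 2 * ((2 : E w) ^ k * 2⁻¹ ^ k - 0 * 0) -
        (((2 : E w) ^ k + 2⁻¹ ^ k) ^ 2 - 2 * (2 ^ k * 2⁻¹ ^ k - 0 * 0)) =
        -((((2 : ℕ) ^ (2 * k) - 1 : ℕ) : E w) * 2⁻¹ ^ k) ^ 2 := by
      have h1 : ((((2 : ℕ) ^ (2 * k) - 1 : ℕ) : E w)) = 2 ^ k * 2 ^ k - 1 := by
        rw [Nat.cast_sub Nat.one_le_two_pow]
        push_cast
        ring
      rw [h1]
      exact key _ _ hp1
    rw [e, norm_neg, norm_pow, norm_mul, norm_pow, norm_inv, hn2,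
      norm_nat_one (p := ℓ w) (E w) (m := 2 ^ (2 * k) - 1)]
    · simp
    · rw [hpr.coprime_iff_not_dvd]
      intro hdv
      have h1 : 2 ^ 2 ≤ 2 ^ (2 * k) := Nat.pow_le_pow_right (by norm_num) (by omega)
      have h2 : 2 ^ (2 * k) ≤ 2 ^ (2 * U.index) := Nat.pow_le_pow_right (by norm_num) (by omega)
      have h3 := Nat.le_of_dvd (Nat.sub_pos_of_lt (lt_of_lt_of_le (by norm_num) h1)) hdv
      exact absurd (h3.trans ((Nat.sub_le _ _).trans h2)) (not_le.mpr hwp)
  · intro a b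
    have e1 : (baseChange (E w) (T (ℓ w)) (g₀ ^ k) : Matrix (Fin n) (Fin n) (E w)) a b =
        algebraMap ℚ_[ℓ w] (E w) ((T (ℓ w) (g₀ ^ k) : Matrix (Fin n) (Fin n) ℚ_[ℓ w]) a b) := rfl
    have e2 : (1 : Matrix (Fin n) (Fin n) (E w)) a b =
        algebraMap ℚ_[ℓ w] (E w) ((1 : Matrix (Fin n) (Fin n) ℚ_[ℓ w]) a b) := by
      rw [Matrix.one_apply, Matrix.one_apply]
      split_ifs
      · rw [map_one]
      · rw [map_zero]
    rw [e1, e2, ← map_sub, norm_algebraMap']
    exact hk1 a b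

omit [∀ v, IsUltrametricDist (F v)] [TotallyDisconnectedSpace G] in
/-- potential containment prevents the image of the kernel from being large -/
private theorem not_full (v : Λ) [CharZero (E v)] (H : Subgroup G) (hH : H ≤ (T (ℓ v)).ker)
    (h : PotentiallyContained (extend (φ v : E v →+* F v) (V v)) (baseChange (F v) (T (ℓ v))))
    {ε : ℝ} (hε : 0 < ε) : ¬ Full V H v ε := by
  obtain ⟨U, hU, i, hi, hUi⟩ := h
  intro h5
  refine not_near_of_trivial (V v) H U hU ?_ hε fun y hy hy' => ?_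
  · intro x hx hxU
    have h6 := hUi x hxU
    have h7 : T (ℓ v) x = 1 := hH hx
    have h8 : baseChange (F v) (T (ℓ v)) x = 1 := by
      change Matrix.GeneralLinearGroup.map (algebraMap ℚ_[ℓ v] (F v)) (T (ℓ v) x) = 1
      rw [h7, map_one]
    rw [h8, Units.val_one, Matrix.one_mul] at h6
    have h9 : (extend (φ v : E v →+* F v) (V v) x : Matrix (Fin 2) (Fin 2) (F v)) = 1 := by
      apply Matrix.ext_of_mulVec_single
      intro k
      apply hi
      rw [Matrix.mulVec_mulVec, ← h6, Matrix.one_mulVec]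
    ext a b
    apply (φ v : E v →+* F v).injective
    have h10 := congrFun (congrFun h9 a) b
    change φ v ((V v x : Matrix (Fin 2) (Fin 2) (E v)) a b) = _ at h10
    change φ v ((V v x : Matrix (Fin 2) (Fin 2) (E v)) a b) = φ v _
    rw [h10]
    by_cases hab : a = b
    · subst hab
      simp
    · simp [hab]
  · obtain ⟨x, hx, hx', -⟩ := h5 y hy hy'
    exact ⟨x, hx, hx'⟩

omit [IsTopologicalGroup G] [CompactSpace G] [TotallyDisconnectedSpace G] in
private theorem closed_ck (hT : ∀ (l : ℕ) [Fact l.Prime], Continuous (T l)) :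
    IsClosed ((commonKernel T : Subgroup G) : Set G) := by
  have h1 : ((commonKernel T : Subgroup G) : Set G) =
      ⋂ (l : ℕ) (_ : Fact l.Prime), ((T l).ker : Set G) := by
    simp [commonKernel]
  rw [h1]
  refine isClosed_iInter fun l => isClosed_iInter fun hl => ?_
  exact isClosed_singleton.preimage (hT l)

omit [TopologicalSpace G] [IsTopologicalGroup G] [CompactSpace G] [TotallyDisconnectedSpace G] in
private theorem normal_ck : (commonKernel T : Subgroup G).Normal := by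
  unfold commonKernel
  exact Subgroup.normal_iInf_normal fun l => Subgroup.normal_iInf_normal fun hl =>
    MonoidHom.normal_ker _

end

theorem uniform (n a q : ℕ) : ∃ K N₀ : ℕ,
    ∀ {M : Type} [Field M] [NumberField M] {Λ : Type} [Infinite Λ] (ℓ : Λ → ℕ)
      [∀ v, Fact (ℓ v).Prime] (_ : ∀ l, {v | ℓ v = l}.Finite)
      (E : Λ → Type) [∀ v, NontriviallyNormedField (E v)] [∀ v, IsUltrametricDist (E v)]
      [∀ v, NormedAlgebra ℚ_[ℓ v] (E v)] [∀ v, FiniteDimensional ℚ_[ℓ v] (E v)]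
      (_ : ∀ v, Module.finrank ℚ_[ℓ v] (E v) ≤ a) (j : ∀ v, M →+* E v)
      (F : Λ → Type) [∀ v, NontriviallyNormedField (F v)] [∀ v, IsUltrametricDist (F v)]
      [∀ v, NormedAlgebra ℚ_[ℓ v] (F v)] [∀ v, FiniteDimensional ℚ_[ℓ v] (F v)]
      (φ : ∀ v, E v →ₐ[ℚ_[ℓ v]] F v)
      {G : Type} [Group G] [TopologicalSpace G] [IsTopologicalGroup G] [CompactSpace G]
      [TotallyDisconnectedSpace G]
      (V : ∀ v, G →* GL (Fin 2) (E v)) (_ : ∀ v, Continuous (V v))
      (_ : ∀ v y s t, ‖(V v y : Matrix (Fin 2) (Fin 2) (E v)) s t‖ ≤ 1)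
      (_ : AdelicallyOpen ⊤ V) (x : ℕ) (_ : N₀ ≤ x) (_ : FullBeyond ℓ x ⊤ V)
      (v₀ : Λ) (_ : FewClasses q (F v₀)) (I : Type) (d : I → ℕ)
      (T : ∀ (i : I) (l : ℕ) [Fact l.Prime], G →* GL (Fin (d i)) ℚ_[l])
      (f : G → (𝓞 M)[X]) (g : I → G → (𝓞 M)[X]),
      (∀ i, d i ≤ n) → (∀ i, IsSystem ℓ φ V (T i)) →
      (∀ i, DenselyMatching ℓ j V (T i) f (g i)) →
      (∀ i, Comparable ℓ j V (T i) K x v₀ f (g i)) →
      List.TFAE [
        ∃ i v, ContainedAt ℓ φ V (T i) v,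
        ∃ i, ∀ v, ContainedAt ℓ φ V (T i) v,
        ∃ i v, x < ℓ v ∧ ScalarAt ℓ V (T i) v,
        ¬ FullBeyond ℓ x (⨅ i, commonKernel (T i)) V,
        ¬ (FullBeyond ℓ x (⨅ i, commonKernel (T i)) V ∧
          (Finite I → AdelicallyOpen (⨅ i, commonKernel (T i)) V))] := by
  classical
  choose K hK using fun e : ℕ => contained_uniform e q
  choose C hC using fun e : ℕ => residual_place e a
  refine ⟨∑ e ∈ Finset.range (n + 1), K e,
    ∑ e ∈ Finset.range (n + 1), C e + 2 * n.factorial + 9, ?_⟩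
  intro M _ _ Λ _ ℓ _ hfin E _ _ _ _ ha j F _ _ _ _ φ G _ _ _ _ _ V hV hVi hopen x hx hxf v₀
    hFC I d T f g hd hsys hdense hcmp
  obtain ⟨A, hAq, hA⟩ := hFC
  choose N D c hN hNV hNT hD hmat hc hcx using hcmp
  have hT : ∀ i (l : ℕ) [Fact l.Prime], Continuous (T i l) := fun i => (hsys i).continuous
  have hTi : ∀ i (l : ℕ) [Fact l.Prime] (y : G),
      Itg (T i l y : Matrix (Fin (d i)) (Fin (d i)) ℚ_[l]) := fun i => (hsys i).integral
  have hss : ∀ i v, Semisimple (baseChange (F v) (T i (ℓ v))) := fun i => (hsys i).semisimple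
  have hgen : ∀ i v, IdempotentGenerated (ℓ v) (extend (φ v : E v →+* F v) (V v))
      (baseChange (F v) (T i (ℓ v))) := fun i => (hsys i).generated
  have hE0 : ∀ v, CharZero (E v) := fun v =>
    charZero_of_injective_algebraMap (algebraMap ℚ_[ℓ v] (E v)).injective
  have hFp : ProperSpace (F v₀) := FiniteDimensional.proper ℚ_[ℓ v₀] (F v₀)
  obtain ⟨S, ε, hε, hbig, hsmall⟩ := full_of_open V ⊤ hopen
  have hfull : ∀ v, ∃ ε' : ℝ, 0 < ε' ∧ Full V ⊤ v ε' := by
    intro v
    by_cases hv : v ∈ S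
    · exact ⟨ε, hε, hsmall v hv⟩
    · exact ⟨2, two_pos, hbig v hv⟩
  have hirr : ∀ v, StronglyIrreducible (V v) := by
    intro v
    obtain ⟨ε', h1, h2⟩ := hfull v
    refine strIrr_of_near (V v) h1 fun y hy hy' => ?_
    obtain ⟨g, -, hg, -⟩ := h2 y hy hy'
    exact ⟨g, hg⟩
  have hmem : ∀ i, d i ∈ Finset.range (n + 1) := fun i =>
    Finset.mem_range.mpr (Nat.lt_succ_of_le (hd i))
  have hCi : ∀ i, C (d i) ≤ ∑ e ∈ Finset.range (n + 1), C e := fun i =>
    Finset.single_le_sum (f := C) (fun _ _ => Nat.zero_le _) (hmem i)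
  have hKi : ∀ i, K (d i) ≤ ∑ e ∈ Finset.range (n + 1), K e := fun i =>
    Finset.single_le_sum (f := K) (fun _ _ => Nat.zero_le _) (hmem i)
  have hsm : ∀ m : ℕ, {v | ℓ v ≤ m}.Finite := by
    intro m
    have h1 : {v | ℓ v ≤ m} = ⋃ l ∈ Finset.range (m + 1), {v | ℓ v = l} := by
      ext v
      simp
    rw [h1]
    exact Set.Finite.biUnion (Finset.range (m + 1)).finite_toSet fun l _ => hfin l
  have hunb : ∀ m : ℕ, ∃ v, m < ℓ v := by
    intro m
    obtain ⟨w, hw⟩ := (hsm m).infinite_compl.nonempty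
    exact ⟨w, by simpa using hw⟩
  obtain ⟨w₀, hw₀⟩ := hunb x
  have hx7 : 7 ≤ x := by omega
  -- one residual place suffices
  have hcore : ∀ i v, x < ℓ v → ScalarAt ℓ V (T i) v → ContainedAt ℓ φ V (T i) v₀ := by
    intro i v hv hsc
    have hf2 := full_of_beyond ℓ V ⊤ hxf hv 2
    refine hK (d i) (ℓ v₀) (F v₀) A hAq hA G (extend (φ v₀ : E v₀ →+* F v₀) (V v₀))
      (baseChange (F v₀) (T i (ℓ v₀))) M ((φ v₀ : E v₀ →+* F v₀).comp (j v₀))
      (continuous_extend (φ v₀) (hV v₀)) (strIrr_extend _ (hirr v₀)) (bc_cont (F v₀) (hT i _))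
      (hss i v₀) (hgen i v₀) (N i) (D i) f (g i) (hN i) ?_ ?_
      (fun U hU hUo hNU hUi => hD i U hU hUo hNU (hUi.trans (hKi i))) ?_ ?_
    · intro y hy
      rw [MonoidHom.mem_ker]
      change Matrix.GeneralLinearGroup.map (φ v₀ : E v₀ →+* F v₀) (V v₀ y) = 1
      rw [MonoidHom.mem_ker.mp (hNV i hy), map_one]
    · intro y hy
      rw [MonoidHom.mem_ker]
      change Matrix.GeneralLinearGroup.map (algebraMap ℚ_[ℓ v₀] (F v₀)) (T i (ℓ v₀) y) = 1
      rw [MonoidHom.mem_ker.mp (hNT i hy), map_one]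
    · intro r hr
      exact matF ℓ E j F φ V (T i) f (g i) v₀ r (hmat i r hr v₀ (Or.inl rfl))
    · intro r hr
      obtain ⟨hm1, hm2⟩ := hmat i r hr v (Or.inr hv)
      refine om_zero_of_place (j v) (f r) (g i r) _ _ hm1 hm2 ?_ (hc i r hr) (hcx i) hv
      refine hC (d i) (ℓ v) (by have := hCi i; omega) (E v) (ha v) G (V v) (T i (ℓ v)) (hVi v)
        (hTi i _) ?_ (fun y hy => (scalar_iff (hVi v y)).2 (hsc y hy)) r
      intro y hy
      obtain ⟨z, -, hz, -⟩ := hf2 y hy (near_two hy)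
      exact ⟨z, hz⟩
  -- large places
  have hlarge : (¬ ∃ i v, ContainedAt ℓ φ V (T i) v) →
      ∀ v, x < ℓ v → Full V (⨅ i, commonKernel (T i)) v 2 := by
    intro hcon v hv
    have hf2 := full_of_beyond ℓ V ⊤ hxf hv 2
    refine full_iInf V hV v (norm30 (p := ℓ v) (E v) (hx7.trans hv.le)) (hVi v) hf2 _
      (fun i => normal_ck (T i)) (fun i => closed_ck (T i) (hT i)) fun i => ?_
    have hfact : (d i).factorial ≤ n.factorial := Nat.factorial_le (hd i)
    refine big_place V hV v (p := ℓ v) (hVi v) hf2 (T i) (hT i) (hTi i) (by omega) (by omega) ?_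
    by_contra hno
    push Not at hno
    exact hcon ⟨i, v₀, hcore i v hv fun y hy => (scalar_iff (hVi v y)).1 (hno y hy)⟩
  have hclosed : IsClosed ((⨅ i, commonKernel (T i) : Subgroup G) : Set G) := by
    rw [Subgroup.coe_iInf]
    exact isClosed_iInter fun i => closed_ck (T i) (hT i)
  have hle : ∀ i v, (⨅ i, commonKernel (T i) : Subgroup G) ≤ (T i (ℓ v)).ker := by
    intro i v
    refine (iInf_le _ i).trans ?_
    unfold commonKernel
    exact iInf₂_le (f := fun (l : ℕ) (_ : Fact l.Prime) => (T i l).ker) (ℓ v) inferInstance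
  tfae_have 1 → 2 := by
    rintro ⟨i, v, h⟩
    exact ⟨i, fun w => transfer ℓ E j F φ V (T i) f (g i) hV (hT i) hirr (hss i) (hgen i)
      (hdense i) v w h⟩
  tfae_have 2 → 3 := by
    rintro ⟨i, h⟩
    obtain ⟨w, h1, h2⟩ := resid ℓ E j F φ V (T i) f (g i) hV hVi (hT i) (hTi i) (hdense i) hx7 hxf
      hunb v₀ (h v₀)
    exact ⟨i, w, h1, h2⟩
  tfae_have 3 → 1 := by
    rintro ⟨i, v, hv, h⟩
    exact ⟨i, v₀, hcore i v hv h⟩
  tfae_have 2 → 4 := by
    rintro ⟨i, h⟩ hA
    exact not_full ℓ E F φ V (T i) w₀ _ (hle i w₀) (h w₀) two_pos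
      (full_of_beyond ℓ V _ hA hw₀ 2)
  tfae_have 4 → 5 := fun h hA => h hA.1
  tfae_have 5 → 1 := by
    intro h
    by_contra hcon
    have hcon' := hcon
    push Not at hcon'
    refine h ⟨beyond_of_full ℓ V hV _ hclosed (hlarge hcon), fun hI => ?_⟩
    have hsmallp : ∀ v, ∃ ε' : ℝ, 0 < ε' ∧ Full V (⨅ i, commonKernel (T i)) v ε' := by
      intro v
      obtain ⟨ε', h1, h2⟩ := hfull v
      refine full_finite V v h1 h2 _ (fun i => normal_ck (T i)) fun i => ?_
      exact small_placeF V hV v (hVi v) h1 h2 (T i) (hT i) (hTi i) (φ v) (hss i v) (hgen i v)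
        (hcon' i v)
    choose δ hδ hδ' using hsmallp
    refine open_of_full V hV _ hclosed (hsm x).toFinset δ (fun v _ => hδ v) ?_ fun v _ => hδ' v
    intro v hv
    refine hlarge hcon v ?_
    have h1 : ¬ ℓ v ≤ x := fun h0 => hv ((hsm x).mem_toFinset.mpr h0)
    omega
  tfae_finish

end Pool.Agent.Helper37.Ub
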